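import Pool.Agent.H500.ED.Stm
import Pool.Agent.H967.SV.Fld
import Pool.Graph.R_seed8.W352.ChAbs.Frob

/-!
# Conjugate places (`S_FXJ`, by helper181 for helper500)
-/

set_option autoImplicit false
set_option linter.unusedSectionVars false

namespace Pool.Agent.H181.ED.FXJ

open NumberField IsDedekindDomain Filter Topology
open Pool.Agent.W401.Cheb (GK IsFrob IsInert)
open Pool.Agent.H500.SV (Above)
open Pool.Agent.H500.ED

section
variable {K : Type} [Field K] [NumberField K] {L : Type} [Field L] [NumberField L] [Algebra K L]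
variable (e : AlgebraicClosure L ≃+* AlgebraicClosure K)

/-- the isomorphism of the rings of integers -/
noncomputable def up : 𝓞 (AlgebraicClosure L) →+* 𝓞 (AlgebraicClosure K) :=
  RingOfIntegers.mapRingHom (e : AlgebraicClosure L →+* AlgebraicClosure K)

noncomputable def dn : 𝓞 (AlgebraicClosure K) →+* 𝓞 (AlgebraicClosure L) :=
  RingOfIntegers.mapRingHom (e.symm : AlgebraicClosure K →+* AlgebraicClosure L)

theorem up_coe (x : 𝓞 (AlgebraicClosure L)) :
    ((up e x : 𝓞 (AlgebraicClosure K)) : AlgebraicClosure K) = e x := rfl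

theorem dn_coe (x : 𝓞 (AlgebraicClosure K)) :
    ((dn e x : 𝓞 (AlgebraicClosure L)) : AlgebraicClosure L) = e.symm x := rfl

theorem dn_up (x : 𝓞 (AlgebraicClosure L)) : dn e (up e x) = x := by
  apply RingOfIntegers.ext
  rw [dn_coe, up_coe, e.symm_apply_apply]

theorem up_dn (x : 𝓞 (AlgebraicClosure K)) : up e (dn e x) = x := by
  apply RingOfIntegers.ext
  rw [up_coe, dn_coe, e.apply_symm_apply]

/-- the transport of the action of `y` -/
noncomputable def ph (y : GK K) : 𝓞 (AlgebraicClosure L) →+* 𝓞 (AlgebraicClosure L) :=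
  (dn e).comp ((MulSemiringAction.toRingHom (GK K) (𝓞 (AlgebraicClosure K)) y).comp (up e))

theorem ph_apply (y : GK K) (x : 𝓞 (AlgebraicClosure L)) : ph e y x = dn e (y • up e x) := rfl

theorem ph_surj (y : GK K) : Function.Surjective (ph e y) := by
  intro z
  refine ⟨dn e (y⁻¹ • up e z), ?_⟩
  rw [ph_apply, up_dn, smul_inv_smul, dn_up]

variable {e} {U : Subgroup (GK K)} {ι : GK L →* GK K}

theorem io_mem (h : FX U L ι e) (s : GK L) : ι s ∈ U := by
  rw [h.mem]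
  intro x
  rw [h.act, AlgEquiv.commutes]

theorem exists_lift (h : FX U L ι e) {g : GK K} (hg : g ∈ U) : ∃ s : GK L, ι s = g := by
  rw [h.mem] at hg
  let s : GK L := AlgEquiv.ofRingEquiv (f := (e.trans (g : AlgebraicClosure K ≃+* AlgebraicClosure K)).trans e.symm)
    (fun x => by
      show e.symm (g (e (algebraMap L (AlgebraicClosure L) x))) = _
      rw [hg, e.symm_apply_apply])
  refine ⟨s, AlgEquiv.ext fun x => ?_⟩
  have h1 := h.act s (e.symm x)
  rw [e.apply_symm_apply] at h1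
  rw [h1]
  show e (e.symm (g (e (e.symm x)))) = g x
  rw [e.apply_symm_apply, e.apply_symm_apply]

theorem dn_smul (h : FX U L ι e) (s : GK L) (x : 𝓞 (AlgebraicClosure K)) :
    dn e (ι s • x) = s • dn e x := by
  apply RingOfIntegers.ext
  rw [dn_coe]
  show e.symm (ι s (x : AlgebraicClosure K)) = s (e.symm (x : AlgebraicClosure K))
  have h1 := h.act s (e.symm (x : AlgebraicClosure K))
  rw [e.apply_symm_apply] at h1
  rw [h1, e.symm_apply_apply]

theorem up_smul (h : FX U L ι e) (s : GK L) (x : 𝓞 (AlgebraicClosure L)) :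
    up e (s • x) = ι s • up e x := by
  apply RingOfIntegers.ext
  rw [up_coe]
  exact (h.act s (x : AlgebraicClosure L)).symm

theorem ph_smul (h : FX U L ι e) {s s' : GK L} {y : GK K} (hs : ι s' = y⁻¹ * ι s * y)
    (x : 𝓞 (AlgebraicClosure L)) : ph e y (s' • x) = s • ph e y x := by
  rw [ph_apply, ph_apply, up_smul h, ← dn_smul h, hs, smul_smul, smul_smul]
  congr 2
  group

theorem ph_alg (h : FX U L ι e) (y : GK K) (a : 𝓞 K) :
    ph e y (algebraMap (𝓞 L) (𝓞 (AlgebraicClosure L)) (algebraMap (𝓞 K) (𝓞 L) a)) =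
      algebraMap (𝓞 L) (𝓞 (AlgebraicClosure L)) (algebraMap (𝓞 K) (𝓞 L) a) := by
  have h1 : up e (algebraMap (𝓞 L) (𝓞 (AlgebraicClosure L)) (algebraMap (𝓞 K) (𝓞 L) a)) =
      algebraMap (𝓞 K) (𝓞 (AlgebraicClosure K)) a := by
    apply RingOfIntegers.ext
    rw [up_coe]
    exact h.base (a : K)
  have h2 : y • algebraMap (𝓞 K) (𝓞 (AlgebraicClosure K)) a = algebraMap (𝓞 K) (𝓞 (AlgebraicClosure K)) a := by
    apply RingOfIntegers.ext
    exact y.commutes (a : K)
  rw [ph_apply, h1, h2, ← h1, dn_up]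

theorem norm_pos (w : HeightOneSpectrum (𝓞 L)) : 1 < Ideal.absNorm w.asIdeal := by
  have h0 : Ideal.absNorm w.asIdeal ≠ 0 := fun h => w.ne_bot (Ideal.absNorm_eq_zero_iff.1 h)
  have h1 : Ideal.absNorm w.asIdeal ≠ 1 := fun h =>
    w.isPrime.ne_top (Ideal.absNorm_eq_one_iff.1 h)
  omega

theorem norm_le {w : HeightOneSpectrum (𝓞 L)} {Q : Ideal (𝓞 (AlgebraicClosure L))}
    (hQw : Q.comap (algebraMap (𝓞 L) (𝓞 (AlgebraicClosure L))) = w.asIdeal) {n : ℕ} (hn : 1 < n)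
    {s : GK L} (hs : ∀ x : 𝓞 (AlgebraicClosure L), s • x - x ^ n ∈ Q) :
    Ideal.absNorm w.asIdeal ≤ n := by
  have hx : ∀ x : 𝓞 L, x ^ n - x ∈ w.asIdeal := by
    intro x
    have h1 := hs (algebraMap (𝓞 L) (𝓞 (AlgebraicClosure L)) x)
    rw [Pool.Agent.W401.Frob.smul_alg, ← map_pow, ← map_sub] at h1
    have h3 : x - x ^ n ∈ w.asIdeal := by
      rw [← hQw]
      exact h1
    have h4 := w.asIdeal.neg_mem h3
    rwa [neg_sub] at h4
  have hwm : w.asIdeal.IsMaximal := w.isMaximal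
  let _ : Field (𝓞 L ⧸ w.asIdeal) := Ideal.Quotient.field w.asIdeal
  have h1 : Ideal.absNorm w.asIdeal = Nat.card (𝓞 L ⧸ w.asIdeal) := by
    rw [Ideal.absNorm_apply, Submodule.cardQuot_apply]
  rw [h1]
  refine Pool.Agent.H967.SV.Fld.card_le_of_pow hn fun y => ?_
  obtain ⟨x, rfl⟩ := Ideal.Quotient.mk_surjective y
  rw [← map_pow]
  exact Ideal.Quotient.eq.2 (hx x)

/-- the conjugate of a Frobenius element -/
theorem core (hU : U.Normal) (h : FX U L ι e) {w w' : HeightOneSpectrum (𝓞 L)} {s s' : GK L}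
    {Q : Ideal (𝓞 (AlgebraicClosure L))} (hQm : Q.IsMaximal)
    (hQw : Q.comap (algebraMap (𝓞 L) (𝓞 (AlgebraicClosure L))) = w.asIdeal)
    (hQ : ∀ x : 𝓞 (AlgebraicClosure L), s • x - x ^ Ideal.absNorm w.asIdeal ∈ Q) (y : GK K)
    (hw' : (Q.comap (ph e y)).comap (algebraMap (𝓞 L) (𝓞 (AlgebraicClosure L))) = w'.asIdeal)
    (hs : ι s' = y⁻¹ * ι s * y) :
    ∀ x : 𝓞 (AlgebraicClosure L), s' • x - x ^ Ideal.absNorm w'.asIdeal ∈ Q.comap (ph e y) := by
  have hm : (Q.comap (ph e y)).IsMaximal := Ideal.comap_isMaximal_of_surjective _ (ph_surj e y)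
  have h1 : ∀ x : 𝓞 (AlgebraicClosure L), s' • x - x ^ Ideal.absNorm w.asIdeal ∈ Q.comap (ph e y) := by
    intro x
    rw [Ideal.mem_comap, map_sub, map_pow, ph_smul h hs]
    exact hQ _
  have h2 : Ideal.absNorm w'.asIdeal ≤ Ideal.absNorm w.asIdeal := norm_le hw' (norm_pos w) h1
  obtain ⟨s₀, hs₀⟩ := Pool.Agent.W352.ChAbs.exists_frob w' (Q.comap (ph e y)) hw'
  obtain ⟨s₁, hs₁⟩ := exists_lift h (hU.conj_mem _ (io_mem h s₀) y)
  have h3 : ι s₀ = y⁻¹ * ι s₁ * y := by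
    rw [hs₁]
    group
  have h4 : Ideal.absNorm w.asIdeal ≤ Ideal.absNorm w'.asIdeal := by
    refine norm_le hQw (norm_pos w') (s := s₁) fun z => ?_
    obtain ⟨x, rfl⟩ := ph_surj e y z
    have h5 := hs₀ x
    rw [Ideal.mem_comap, map_sub, map_pow, ph_smul h h3] at h5
    exact h5
  rw [le_antisymm h2 h4]
  exact h1

theorem exists_Q (w : HeightOneSpectrum (𝓞 L)) : ∃ Q : Ideal (𝓞 (AlgebraicClosure L)), Q.IsMaximal ∧
    Q.comap (algebraMap (𝓞 L) (𝓞 (AlgebraicClosure L))) = w.asIdeal := by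
  have hwm : w.asIdeal.IsMaximal := w.isMaximal
  exact Ideal.exists_ideal_over_maximal_of_isIntegral (S := (𝓞 (AlgebraicClosure L))) w.asIdeal (by
    rw [(RingHom.injective_iff_ker_eq_bot _).1 (FaithfulSMul.algebraMap_injective (𝓞 L) (𝓞 (AlgebraicClosure L)))]
    exact bot_le)

theorem dn_max {Q : Ideal (𝓞 (AlgebraicClosure L))} (hQ : Q.IsMaximal) :
    (Q.comap (dn e)).IsMaximal :=
  Ideal.comap_isMaximal_of_surjective _ fun x => ⟨up e x, dn_up e x⟩

theorem dn_above (h : FX U L ι e) {v : HeightOneSpectrum (𝓞 K)} {w : HeightOneSpectrum (𝓞 L)}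
    (hw : Above w v) {Q : Ideal (𝓞 (AlgebraicClosure L))}
    (hQ : Q.comap (algebraMap (𝓞 L) (𝓞 (AlgebraicClosure L))) = w.asIdeal) :
    (Q.comap (dn e)).comap (algebraMap (𝓞 K) (𝓞 (AlgebraicClosure K))) = v.asIdeal := by
  have h' : w.asIdeal.comap (algebraMap (𝓞 K) (𝓞 L)) = v.asIdeal := hw
  rw [← h', ← hQ]
  ext a
  have h1 : up e (algebraMap (𝓞 L) (𝓞 (AlgebraicClosure L)) (algebraMap (𝓞 K) (𝓞 L) a)) =
      algebraMap (𝓞 K) (𝓞 (AlgebraicClosure K)) a := by
    apply RingOfIntegers.ext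
    rw [up_coe]
    exact h.base (a : K)
  rw [Ideal.mem_comap, Ideal.mem_comap, ← h1, dn_up]
  rfl

end

/-- **Part C5.** -/
theorem main : Pool.Agent.H500.ED.S_FXJ := by
  intro K _ _ U L _ _ _ ι e hUn hU h
  constructor
  · rintro w s y ⟨Q, hQm, hQw, hQ⟩
    obtain ⟨s', hs'⟩ := exists_lift h (hUn.conj_mem' _ (io_mem h s) y)
    have hm : (Q.comap (ph e y)).IsMaximal := Ideal.comap_isMaximal_of_surjective _ (ph_surj e y)
    have hp : ((Q.comap (ph e y)).comap (algebraMap (𝓞 L) (𝓞 (AlgebraicClosure L)))).IsPrime := by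
      have := hm.isPrime
      exact Ideal.comap_isPrime _ _
    have hK : ((Q.comap (ph e y)).comap (algebraMap (𝓞 L) (𝓞 (AlgebraicClosure L)))).comap
        (algebraMap (𝓞 K) (𝓞 L)) = w.asIdeal.comap (algebraMap (𝓞 K) (𝓞 L)) := by
      ext a
      rw [Ideal.mem_comap, Ideal.mem_comap, Ideal.mem_comap, Ideal.mem_comap, ph_alg h, ← hQw,
        Ideal.mem_comap]
    have hne : w.asIdeal.comap (algebraMap (𝓞 K) (𝓞 L)) ≠ ⊥ := (w.under (𝓞 K)).ne_bot
    let w' : HeightOneSpectrum (𝓞 L) := ⟨_, hp, fun h0 => hne (by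
      rw [← hK, h0, ← RingHom.ker_eq_comap_bot]
      exact (RingHom.injective_iff_ker_eq_bot _).1 (FaithfulSMul.algebraMap_injective (𝓞 K) (𝓞 L)))⟩
    refine ⟨w', s', ⟨Q.comap (ph e y), hm, rfl, core (w' := w') hUn h hQm hQw hQ y rfl hs'⟩, hs', ?_⟩
    intro v hv
    exact hK.trans hv
  · intro v w w' hw hw'
    obtain ⟨Q, hQm, hQw⟩ := exists_Q w
    obtain ⟨Q', hQm', hQw'⟩ := exists_Q w'
    have m1 := dn_max (e := e) hQm
    have m2 := dn_max (e := e) hQm'
    obtain ⟨y, hy⟩ := Pool.Agent.W352.ChAbs.exists_smul (Q'.comap (dn e)) (Q.comap (dn e))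
      ((dn_above h hw' hQw').trans (dn_above h hw hQw).symm)
    have hQQ : Q.comap (ph e y) = Q' := by
      ext x
      rw [Ideal.mem_comap, ph_apply, ← Ideal.mem_comap, ← hy, Ideal.mem_comap, dn_up]
    obtain ⟨s, hs⟩ := Pool.Agent.W352.ChAbs.exists_frob w Q hQw
    obtain ⟨s', hs'⟩ := exists_lift h (hUn.conj_mem' _ (io_mem h s) y)
    refine ⟨s, s', y, ⟨Q, hQm, hQw, hs⟩, ⟨Q', hQm', hQw', ?_⟩, hs'⟩
    have h1 := core (w' := w') hUn h hQm hQw hs y (by rw [hQQ]; exact hQw') hs'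
    rw [hQQ] at h1
    exact h1

end Pool.Agent.H181.ED.FXJ

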